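import Mathlib
import Pool.Agent.H.MP_bcfe2b_lc.Tree
namespace Pool.Agent.Results.MP_bcfe2b_lc.Family

abbrev NStar : Type := {p : Ultrafilter ℕ // (p : Filter ℕ) ≤ Filter.cofinite}

theorem result : ∃ 𝒜 : Set (Set NStar), Cardinal.mk 𝒜 = 2 ^ Cardinal.aleph 1 ∧
    (∀ U ∈ 𝒜, U = interior (closure U) ∧ ¬ IsCompact U) ∧
    ∀ U ∈ 𝒜, ∀ V ∈ 𝒜, U ≠ V → IsCompact (U ∩ V) := by
  obtain ⟨𝒜, h1, h2, h3⟩ := Pool.Agent.H.MP_bcfe2b_lc.main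
  exact ⟨𝒜, h1, h2, fun U hU V hV h => h3 hU hV h⟩

end Pool.Agent.Results.MP_bcfe2b_lc.Family
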